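import Pool.Agent.helper15.XE.SpecL

/-!
# Project XE, row BIA: the bilinear sums, both ranges of conductors together
-/

set_option autoImplicit false

namespace Pool.Agent.XE

open Finset ArithmeticFunction
open Pool.Agent.EC (tri TL wt mt Adm edg mnf tI tII tyI cvl KK yN UN)
open Pool.Agent.CH (rgh Mo ClP ClB)
open GD (kp ks)

theorem BIA_log (A : ℕ) : ∃ N₀ : ℕ, ∀ N : ℕ, N₀ ≤ N → 3 ≤ N ∧
    (N : ℝ) ^ (2 - 1 / 10000 : ℝ) ≤ (N : ℝ) ^ 2 / Real.log N ^ A := by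
  have h1 : (fun x : ℝ => Real.log x ^ (A : ℝ)) =o[Filter.atTop] fun x : ℝ => x ^ (1 / 10000 : ℝ) :=
    isLittleO_log_rpow_rpow_atTop (A : ℝ) (by norm_num)
  have h2 := (h1.bound (c := 1) (by norm_num)).and (Filter.eventually_ge_atTop (3 : ℝ))
  obtain ⟨X, hX⟩ := Filter.eventually_atTop.mp h2
  refine ⟨max 3 ⌈X⌉₊, fun N hN => ⟨le_trans (le_max_left _ _) hN, ?_⟩⟩
  have hN3 : 3 ≤ N := le_trans (le_max_left _ _) hN
  have hNX : X ≤ (N : ℝ) := by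
    have h4 : ⌈X⌉₊ ≤ N := le_trans (le_max_right _ _) hN
    exact le_trans (Nat.le_ceil X) (by exact_mod_cast h4)
  obtain ⟨h5, h6⟩ := hX (N : ℝ) hNX
  have hN0 : (0 : ℝ) < (N : ℝ) := by linarith
  have hlog : 0 < Real.log (N : ℝ) := Real.log_pos (by linarith)
  rw [Real.rpow_natCast, one_mul, Real.norm_of_nonneg (pow_nonneg hlog.le _),
    Real.norm_of_nonneg (Real.rpow_nonneg hN0.le _)] at h5
  rw [le_div_iff₀ (pow_pos hlog _)]
  calc (N : ℝ) ^ (2 - 1 / 10000 : ℝ) * Real.log N ^ A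
      ≤ (N : ℝ) ^ (2 - 1 / 10000 : ℝ) * (N : ℝ) ^ (1 / 10000 : ℝ) :=
        mul_le_mul_of_nonneg_left h5 (Real.rpow_nonneg hN0.le _)
    _ = (N : ℝ) ^ 2 := by
        rw [← Real.rpow_add hN0, ← Real.rpow_natCast]
        norm_num

theorem BIA (h1 : BIM_stmt) (h2 : BLM_stmt) (h3 : WVB_stmt) : BIA_stmt := by
  intro A E
  obtain ⟨B, C, N₁, hM⟩ := h1 A E
  obtain ⟨N₂, hL⟩ := h2 E
  obtain ⟨N₃, hlog⟩ := BIA_log A
  refine ⟨B, C, max N₁ (max N₂ N₃), fun N hN V hV r R hR α β ha hb hα hβ => ?_⟩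
  have hN1 : N₁ ≤ N := le_trans (le_max_left _ _) hN
  have hN2 : N₂ ≤ N := le_trans (le_trans (le_max_left _ _) (le_max_right _ _)) hN
  have hN3 : N₃ ≤ N := le_trans (le_trans (le_max_right _ _) (le_max_right _ _)) hN
  obtain ⟨h3N, hpow⟩ := hlog N hN3
  by_cases hc : (R : ℝ) ≤ (N : ℝ) ^ (49 / 100 : ℝ)
  · have h5 : ∀ m ∈ Mo (QV N), |∑ j ∈ Z3 N, cvl α β j * fV N V j * kp R (30 * m) (r m) j| ≤
        ∑ v ∈ V, |∑ j ∈ Z3 N, cvl α β j * wv N v j * kp R (30 * m) (r m) j| := by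
      intro m _
      have h6 : ∑ j ∈ Z3 N, cvl α β j * fV N V j * kp R (30 * m) (r m) j =
          ∑ v ∈ V, ∑ j ∈ Z3 N, cvl α β j * wv N v j * kp R (30 * m) (r m) j := by
        rw [Finset.sum_comm]
        refine Finset.sum_congr rfl fun j _ => ?_
        unfold fV
        rw [Finset.mul_sum, Finset.sum_mul]
      rw [h6]
      exact Finset.abs_sum_le_sum_abs _ _
    calc ∑ m ∈ Mo (QV N), |∑ j ∈ Z3 N, cvl α β j * fV N V j * kp R (30 * m) (r m) j|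
        ≤ ∑ m ∈ Mo (QV N), ∑ v ∈ V, |∑ j ∈ Z3 N, cvl α β j * wv N v j * kp R (30 * m) (r m) j| :=
          Finset.sum_le_sum h5
      _ = ∑ v ∈ V, ∑ m ∈ Mo (QV N), |∑ j ∈ Z3 N, cvl α β j * wv N v j * kp R (30 * m) (r m) j| :=
          Finset.sum_comm
      _ ≤ ∑ _v ∈ V, (N : ℝ) ^ 2 / Real.log N ^ A :=
          Finset.sum_le_sum fun v hv => hM N hN1 v (hV.1 v hv) r R hR hc α β ha hb hα hβ
      _ = #V * (N : ℝ) ^ 2 / Real.log N ^ A := by
          rw [Finset.sum_const, nsmul_eq_mul, mul_div_assoc]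
  · have hN0 : (1 : ℝ) ≤ (N : ℝ) := by
      have : 1 ≤ N := by omega
      exact_mod_cast this
    have hlog1 : 1 ≤ Real.log (N : ℝ) := by
      rw [Real.le_log_iff_exp_le (by linarith)]
      have h7 : Real.exp 1 < 3 := lt_trans Real.exp_one_lt_d9 (by norm_num)
      have h8 : (3 : ℝ) ≤ (N : ℝ) := by exact_mod_cast h3N
      linarith
    have h9 : (N : ℝ) ^ (67 / 200 : ℝ) ≤ (N : ℝ) * Real.log N ^ C := by
      calc (N : ℝ) ^ (67 / 200 : ℝ) ≤ (N : ℝ) ^ (1 : ℝ) :=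
            Real.rpow_le_rpow_of_exponent_le hN0 (by norm_num)
        _ = (N : ℝ) * 1 := by rw [Real.rpow_one, mul_one]
        _ ≤ (N : ℝ) * Real.log N ^ C :=
            mul_le_mul_of_nonneg_left (one_le_pow₀ hlog1) (by linarith)
    refine le_trans (hL N hN2 V hV r R (le_of_lt (not_le.mp hc)) α β
      (fun a h => le_trans h9 (ha a h)) (fun b h => le_trans h9 (hb b h)) hα hβ) ?_
    rw [mul_div_assoc]
    exact mul_le_mul_of_nonneg_left hpow (Nat.cast_nonneg _)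

end Pool.Agent.XE
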