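import Pool.Agent.helper15.XE.SpecS

/-!
# Row xe:PNT (MP_5628fe_nt)

The prime number theorem in every window.
-/

set_option autoImplicit false

namespace Pool.Agent.XE

open Finset ArithmeticFunction MeasureTheory
open Pool.Agent.EC (tri TL wt edg)
open Pool.Agent.CH (nit DPb Tset)
open Pool.Agent.SK (uu zN YN gj tr0 g0 clp)
open GD (ks)

private theorem PNT_TL (N : ℕ) (a b : Fin 0 → ℝ) (m : ℕ) : TL N a b m = vonMangoldt m := by
  classical
  unfold TL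
  simp

private theorem PNT_chi (m : ℕ) : (1 : DirichletCharacter ℂ 1) m = 1 :=
  MulChar.one_apply (isUnit_of_subsingleton _)

/-- powers of the logarithm are small -/
private theorem PNT_log (k : ℕ) (K : ℝ) : ∃ N₀ : ℕ, ∀ N : ℕ, N₀ ≤ N →
    K * Real.log N ^ k ≤ (N : ℝ) ^ 2 ∧ K ≤ Real.log N ∧ 1 ≤ Real.log N ∧ 1 ≤ N := by
  have h1 : Filter.Tendsto (fun N : ℕ => Real.log (N : ℝ)) Filter.atTop Filter.atTop :=
    Real.tendsto_log_atTop.comp tendsto_natCast_atTop_atTop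
  have h2 : (fun x : ℝ => Real.log x ^ k) =o[Filter.atTop] fun x : ℝ => x ^ (2 : ℕ) := by
    have h3 := isLittleO_log_rpow_rpow_atTop (k : ℝ) (show (0 : ℝ) < 2 by norm_num)
    have h4 : (fun x : ℝ => Real.log x ^ (k : ℝ)) = fun x : ℝ => Real.log x ^ k := by
      funext x
      exact Real.rpow_natCast _ _
    have h5 : (fun x : ℝ => x ^ (2 : ℝ)) = fun x : ℝ => x ^ (2 : ℕ) := by
      funext x
      have := Real.rpow_natCast x 2
      simp
    rw [h4, h5] at h3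
    exact h3
  have h6 : 0 < 1 / (|K| + 1) := by positivity
  have h7 := h2.bound h6
  have h8 : ∀ᶠ N : ℕ in Filter.atTop, ‖Real.log (N : ℝ) ^ k‖ ≤ 1 / (|K| + 1) * ‖(N : ℝ) ^ 2‖ :=
    tendsto_natCast_atTop_atTop.eventually h7
  obtain ⟨N₀, hN₀⟩ := Filter.eventually_atTop.1 ((h8.and (h1.eventually_ge_atTop (max K 1))).and
    (Filter.eventually_ge_atTop 1))
  refine ⟨N₀, fun N hN => ?_⟩
  obtain ⟨⟨h9, h10⟩, h11⟩ := hN₀ N hN
  have hL : 1 ≤ Real.log N := le_trans (le_max_right _ _) h10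
  refine ⟨?_, le_trans (le_max_left _ _) h10, hL, h11⟩
  rw [Real.norm_of_nonneg (by positivity), Real.norm_of_nonneg (by positivity)] at h9
  have h12 : (|K| + 1) * Real.log N ^ k ≤ (N : ℝ) ^ 2 := by
    calc (|K| + 1) * Real.log N ^ k ≤ (|K| + 1) * (1 / (|K| + 1) * (N : ℝ) ^ 2) :=
          mul_le_mul_of_nonneg_left h9 (by positivity)
      _ = (N : ℝ) ^ 2 := by field_simp
  refine le_trans (mul_le_mul_of_nonneg_right ?_ (by positivity)) h12
  linarith [le_abs_self K]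

theorem PNT (h1 : Pool.Agent.SK.SPT_stmt) (h2 : Pool.Agent.SK.TI1_stmt) (h3 : Pool.Agent.SK.PSR_stmt)
    (h4 : Pool.Agent.SK.ABL_stmt) (h5 : Pool.Agent.SK.TRB_stmt) : PNT_stmt := by
  intro A
  obtain ⟨B₀, hB₀⟩ := h1 0 (fun _ => 0) (fun _ => 0) (Or.inl rfl) (A + 1) 0
  set B : ℕ := max B₀ (A + 3) with hB
  obtain ⟨N₁, hN₁⟩ := hB₀ B (le_max_left _ _)
  obtain ⟨C, hC, hTI⟩ := h2
  obtain ⟨N₂, hN₂⟩ := hTI B
  obtain ⟨N₃, hN₃⟩ := h3 (B + A + 2) 0 1 one_pos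
  obtain ⟨N₅, hN₅⟩ := PNT_log (A + 2) (C + 256)
  refine ⟨max (max N₁ N₂) (max N₃ (max N₅ 3)), fun N hN v hInB => ?_⟩
  have hn1 : N₁ ≤ N := by omega
  have hn2 : N₂ ≤ N := by omega
  have hn3 : N₃ ≤ N := by omega
  have hn5 : N₅ ≤ N := by omega
  obtain ⟨l1, l2, l3, l4⟩ := hN₅ N hn5
  set L : ℝ := Real.log N with hL
  have hN0 : (0 : ℝ) < N := by
    have : 0 < N := by omega
    exact_mod_cast this
  have w1 : |v - 3 * Real.log N| ≤ 1 := by
    obtain ⟨q1, q2⟩ := hInB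
    have q3 : (0 : ℝ) ≤ 1 / (N : ℝ) := by positivity
    rw [abs_le]
    constructor <;> linarith
  have hL0 : 0 < L := by linarith
  have hLB : (1 : ℝ) ≤ L ^ B := one_le_pow₀ l3
  have hLB0 : (0 : ℝ) < L ^ B := by positivity
  have hvlo : 3 * L - 1 ≤ v := by
    have := (abs_le.1 w1).1
    linarith
  have hd1 : 1 / L ^ B ≤ 1 := by
    rw [div_le_one hLB0]
    exact hLB
  -- the three sums
  set S : Finset ℕ := Ioc 0 (64 * N ^ 3) with hS
  have e1 : ‖∑ m ∈ S, ((vonMangoldt m : ℝ) : ℂ) * gj B N v m‖ ≤ (N : ℝ) ^ 2 / L ^ (A + 1) := by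
    have h := hN₁ N hn1 v w1 1 le_rfl (by simp) 1
    have h' : ∑ m ∈ Ioc 0 (64 * N ^ 3), ((TL N (fun _ : Fin 0 => (0 : ℝ)) (fun _ => 0) m : ℝ) : ℂ) *
        (1 : DirichletCharacter ℂ 1) m * gj B N v m = ∑ m ∈ S, ((vonMangoldt m : ℝ) : ℂ) * gj B N v m := by
      refine Finset.sum_congr rfl fun m _ => ?_
      rw [PNT_TL, PNT_chi, mul_one]
    rw [h'] at h
    exact h
  have hg1 : gj B N v 1 = 0 := by
    have t1 : ∀ δ : ℝ, 0 < δ → δ ≤ 1 → tr0 v δ (Real.log ((1 : ℕ) : ℝ)) = 0 := by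
      intro δ hδ hδ1
      refine (h5 v δ hδ).2.1 _ ?_
      rw [Nat.cast_one, Real.log_one, zero_sub, abs_neg]
      refine le_trans hδ1 (le_trans ?_ (le_abs_self v))
      linarith
    unfold gj g0
    rw [t1 (1 / (N : ℝ)) (by positivity) (by
      rw [div_le_one hN0]
      exact_mod_cast l4), t1 (1 / Real.log N ^ B) (by positivity) hd1]
    simp
  have e2 : ‖∑ m ∈ S, gj B N v m‖ ≤ C * L * (1 + (N : ℝ) ^ 2 / L ^ B) := by
    have h := (hN₂ N hn2 v w1 1 le_rfl 1 0 1 1 (by omega) le_rfl le_rfl).2.2 ?_ ?_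
    · have h' : ∑ n ∈ Ioc (1 : ℕ) (64 * N ^ 3 / 1), (1 : DirichletCharacter ℂ 1) ((n : ℕ) : ZMod 1) *
          ((Real.log ((n : ℕ) : ℝ) : ℝ) : ℂ) ^ 0 * gj B N v (1 * n) = ∑ m ∈ S, gj B N v m := by
        have h64 : 1 ≤ 64 * N ^ 3 := by
          have : 0 < N ^ 3 := by positivity
          omega
        rw [Nat.div_one]
        have h'' : S = insert 1 (Ioc 1 (64 * N ^ 3)) := by
          ext m
          rw [hS, Finset.mem_insert, Finset.mem_Ioc, Finset.mem_Ioc]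
          omega
        rw [h'', Finset.sum_insert (by simp), hg1, zero_add]
        refine Finset.sum_congr rfl fun m _ => ?_
        rw [PNT_chi, pow_zero, one_mul, one_mul, one_mul]
      rw [h'] at h
      refine h.trans (le_of_eq ?_)
      push_cast
      ring
    · push_cast
      rw [mul_one, Real.one_le_exp_iff]
      linarith
    · have : 0 < N ^ 3 := by positivity
      omega
  have hK : ∀ u ≤ 64 * N ^ 3, ‖∑ n ∈ Ioc 0 u, (((vonMangoldt n : ℝ) : ℂ) - 1)‖ ≤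
      64 * (N : ℝ) ^ 3 / L ^ (B + A + 2) := by
    intro u hu
    have h := (hN₃ N hn3 (64 * (N : ℝ) ^ 3) ?_ le_rfl u (by exact_mod_cast hu)).2
    · exact h
    · rw [Real.rpow_one]
      have hN1 : (1 : ℝ) ≤ N := by exact_mod_cast l4
      nlinarith [pow_le_pow_left₀ zero_le_one hN1 2, pow_le_pow_left₀ zero_le_one hN1 3, mul_pos hN0 hN0,
        pow_pos hN0 3]
  have hclp : ∀ y : ℝ, 0 ≤ clp y ∧ clp y ≤ 1 := fun y =>
    ⟨le_max_left _ _, max_le zero_le_one (min_le_left _ _)⟩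
  have hclpm : ∀ y z : ℝ, y ≤ z → clp y ≤ clp z := fun y z h =>
    max_le_max le_rfl (min_le_min le_rfl h)
  have e3a : ∀ s : ℝ, ‖∑ n ∈ S, (((vonMangoldt n : ℝ) : ℂ) - 1) *
      ((clp ((Real.log n - v) / (1 / L ^ B) + s) : ℝ) : ℂ)‖ ≤ 2 * (64 * (N : ℝ) ^ 3 / L ^ (B + A + 2)) := by
    intro s
    have h := h4 (fun n => ((vonMangoldt n : ℝ) : ℂ) - 1)
      (fun n => clp ((Real.log n - v) / (1 / L ^ B) + s)) 0 (64 * N ^ 3)
      (64 * (N : ℝ) ^ 3 / L ^ (B + A + 2)) (fun n => (hclp _).1) ?_ hK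
    · refine h.trans ?_
      have hK0 : 0 ≤ 2 * (64 * (N : ℝ) ^ 3 / L ^ (B + A + 2)) := by positivity
      calc 2 * (64 * (N : ℝ) ^ 3 / L ^ (B + A + 2)) * _ ≤ 2 * (64 * (N : ℝ) ^ 3 / L ^ (B + A + 2)) * 1 :=
            mul_le_mul_of_nonneg_left (hclp _).2 hK0
        _ = _ := mul_one _
    · intro m n hm hmn _
      refine hclpm _ _ ?_
      have hm0 : (0 : ℝ) < m := by exact_mod_cast hm
      have hlog : Real.log m ≤ Real.log n := Real.log_le_log hm0 (by exact_mod_cast hmn)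
      have : (Real.log m - v) / (1 / L ^ B) ≤ (Real.log n - v) / (1 / L ^ B) :=
        div_le_div_of_nonneg_right (by linarith) (by positivity)
      linarith
  have e3 : ‖∑ n ∈ S, (((vonMangoldt n : ℝ) : ℂ) - 1) * ((tr0 v (1 / L ^ B) (Real.log n) : ℝ) : ℂ)‖ ≤
      256 * (N : ℝ) ^ 3 / L ^ (B + A + 2) := by
    have h : ∑ n ∈ S, (((vonMangoldt n : ℝ) : ℂ) - 1) * ((tr0 v (1 / L ^ B) (Real.log n) : ℝ) : ℂ) =
        ∑ n ∈ S, (((vonMangoldt n : ℝ) : ℂ) - 1) * ((clp ((Real.log n - v) / (1 / L ^ B) + 1) : ℝ) : ℂ) -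
        ∑ n ∈ S, (((vonMangoldt n : ℝ) : ℂ) - 1) * ((clp ((Real.log n - v) / (1 / L ^ B) + 0) : ℝ) : ℂ) := by
      rw [← Finset.sum_sub_distrib]
      refine Finset.sum_congr rfl fun n _ => ?_
      rw [(h5 v (1 / L ^ B) (by positivity)).2.2.2.2.2.1 (Real.log n), add_zero]
      push_cast
      ring
    rw [h]
    refine (norm_sub_le _ _).trans ((add_le_add (e3a 1) (e3a 0)).trans (le_of_eq ?_))
    ring
  -- assembling
  have hmain : ((∑ m ∈ Z3 N, vonMangoldt m * wv N v m - Xv N v : ℝ) : ℂ) =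
      ∑ m ∈ S, ((vonMangoldt m : ℝ) : ℂ) * gj B N v m - ∑ m ∈ S, gj B N v m +
      ((L ^ B / N : ℝ) : ℂ) *
        ∑ n ∈ S, (((vonMangoldt n : ℝ) : ℂ) - 1) * ((tr0 v (1 / L ^ B) (Real.log n) : ℝ) : ℂ) := by
    have h' : ((∑ m ∈ Z3 N, vonMangoldt m * wv N v m - Xv N v : ℝ) : ℂ) =
        ∑ m ∈ S, (((vonMangoldt m : ℝ) : ℂ) - 1) * ((tr0 v (1 / (N : ℝ)) (Real.log m) : ℝ) : ℂ) := by
      unfold Xv
      push_cast
      rw [← Finset.sum_sub_distrib]
      refine Finset.sum_congr rfl fun m _ => ?_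
      have h'' : wv N v m = tr0 v (1 / (N : ℝ)) (Real.log m) := rfl
      rw [h'']
      ring
    rw [h', Finset.mul_sum, ← Finset.sum_sub_distrib, ← Finset.sum_add_distrib]
    refine Finset.sum_congr rfl fun m _ => ?_
    have hg : tr0 v (1 / (N : ℝ)) (Real.log m) =
        g0 B N v (Real.log m) + L ^ B / N * tr0 v (1 / L ^ B) (Real.log m) := by
      unfold g0
      ring
    rw [hg]
    unfold gj
    push_cast
    ring
  have hnorm : |∑ m ∈ Z3 N, vonMangoldt m * wv N v m - Xv N v| =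
      ‖((∑ m ∈ Z3 N, vonMangoldt m * wv N v m - Xv N v : ℝ) : ℂ)‖ := by
    rw [Complex.norm_real, Real.norm_eq_abs]
  rw [hnorm, hmain]
  have hcoef : ‖((L ^ B / N : ℝ) : ℂ)‖ = L ^ B / N := by
    rw [Complex.norm_real, Real.norm_of_nonneg (by positivity)]
  have hLA1 : (0 : ℝ) < L ^ (A + 1) := by positivity
  have hLA2 : (0 : ℝ) < L ^ (A + 2) := by positivity
  have t3 : L ^ B / N * (256 * (N : ℝ) ^ 3 / L ^ (B + A + 2)) ≤ (N : ℝ) ^ 2 / L ^ (A + 1) := by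
    have : L ^ B / N * (256 * (N : ℝ) ^ 3 / L ^ (B + A + 2)) = 256 / L * ((N : ℝ) ^ 2 / L ^ (A + 1)) := by
      have : L ^ (B + A + 2) = L ^ B * L ^ (A + 1) * L := by ring
      rw [this]
      field_simp
    rw [this]
    have h256 : 256 / L ≤ 1 := by
      rw [div_le_one hL0]
      linarith
    calc 256 / L * ((N : ℝ) ^ 2 / L ^ (A + 1)) ≤ 1 * ((N : ℝ) ^ 2 / L ^ (A + 1)) :=
          mul_le_mul_of_nonneg_right h256 (by positivity)
      _ = _ := one_mul _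
  have t2 : C * L * (1 + (N : ℝ) ^ 2 / L ^ B) ≤ 2 * ((N : ℝ) ^ 2 / L ^ (A + 1)) := by
    have u1 : C * L ≤ (N : ℝ) ^ 2 / L ^ (A + 1) := by
      rw [le_div_iff₀ hLA1]
      have : C * L * L ^ (A + 1) = C * L ^ (A + 2) := by ring
      rw [this]
      refine le_trans ?_ l1
      exact mul_le_mul_of_nonneg_right (by linarith) (by positivity)
    have u2 : C * L * ((N : ℝ) ^ 2 / L ^ B) ≤ (N : ℝ) ^ 2 / L ^ (A + 1) := by
      have hBA : L ^ (A + 3) ≤ L ^ B := pow_le_pow_right₀ l3 (le_max_right _ _)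
      have u3 : (N : ℝ) ^ 2 / L ^ B ≤ (N : ℝ) ^ 2 / L ^ (A + 3) :=
        div_le_div_of_nonneg_left (by positivity) (by positivity) hBA
      refine (mul_le_mul_of_nonneg_left u3 (by positivity)).trans ?_
      have : C * L * ((N : ℝ) ^ 2 / L ^ (A + 3)) = C / L * ((N : ℝ) ^ 2 / L ^ (A + 1)) := by
        have : L ^ (A + 3) = L ^ (A + 1) * L * L := by ring
        rw [this]
        field_simp
      rw [this]
      have hCL : C / L ≤ 1 := by
        rw [div_le_one hL0]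
        linarith
      calc C / L * ((N : ℝ) ^ 2 / L ^ (A + 1)) ≤ 1 * ((N : ℝ) ^ 2 / L ^ (A + 1)) :=
            mul_le_mul_of_nonneg_right hCL (by positivity)
        _ = _ := one_mul _
    have : C * L * (1 + (N : ℝ) ^ 2 / L ^ B) = C * L + C * L * ((N : ℝ) ^ 2 / L ^ B) := by ring
    rw [this]
    linarith
  have t4 : 4 * ((N : ℝ) ^ 2 / L ^ (A + 1)) ≤ (N : ℝ) ^ 2 / L ^ A := by
    have : 4 * ((N : ℝ) ^ 2 / L ^ (A + 1)) = 4 / L * ((N : ℝ) ^ 2 / L ^ A) := by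
      have : L ^ (A + 1) = L ^ A * L := by ring
      rw [this]
      field_simp
    rw [this]
    have h4L : 4 / L ≤ 1 := by
      rw [div_le_one hL0]
      linarith
    calc 4 / L * ((N : ℝ) ^ 2 / L ^ A) ≤ 1 * ((N : ℝ) ^ 2 / L ^ A) :=
          mul_le_mul_of_nonneg_right h4L (by positivity)
      _ = _ := one_mul _
  refine (norm_add_le _ _).trans ?_
  rw [norm_mul, hcoef]
  have t5 := norm_sub_le (∑ m ∈ S, ((vonMangoldt m : ℝ) : ℂ) * gj B N v m) (∑ m ∈ S, gj B N v m)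
  have t6 : L ^ B / N * ‖∑ n ∈ S, (((vonMangoldt n : ℝ) : ℂ) - 1) *
      ((tr0 v (1 / L ^ B) (Real.log n) : ℝ) : ℂ)‖ ≤ L ^ B / N * (256 * (N : ℝ) ^ 3 / L ^ (B + A + 2)) :=
    mul_le_mul_of_nonneg_left e3 (by positivity)
  linarith

end Pool.Agent.XE
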